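import Pool.Agent.Lib.MP_f02ea4_nt.BE.Defs
import Pool.Agent.Lib.MP_f02ea4_nt.BE.Order

/-!
# The largest component of an odd perfect number: the combinatorial part

If every component `q ^ v_q` is at most `Z` then
`log N ≤ 2 (log Z / log 3 + 2 + #{q : v_q ≥ 4}) log Z`.
-/

set_option autoImplicit false

namespace Pool.Agent.LC

open Finset Nat Pool.Agent.BE

/-- the prime factors `q ≡ 2 mod 3` with exponent two -/
def A (N : ℕ) : Finset ℕ := {q ∈ N.primeFactors | N.factorization q = 2 ∧ q % 3 = 2}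

/-- the other prime factors -/
def O (N : ℕ) : Finset ℕ := {q ∈ N.primeFactors | ¬ (N.factorization q = 2 ∧ q % 3 = 2)}

/-- the prime factors with exponent at least four -/
def D (N : ℕ) : Finset ℕ := {q ∈ N.primeFactors | 4 ≤ N.factorization q}

theorem s_two {N q : ℕ} (h : N.factorization q = 2) : s N q = G 3 q := by
  rw [s, h]

theorem not_dvd_two {q r : ℕ} (hr : r.Prime) (h : r % 3 = 2) : ¬ r ∣ G 3 q := by
  intro hd
  rcases head_order (by norm_num) hr hd with h1 | ⟨l, hl, h1, h2⟩
  · have := (Nat.prime_dvd_prime_iff_eq hr Nat.prime_three).1 h1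
    omega
  · have := (Nat.prime_dvd_prime_iff_eq hl Nat.prime_three).1 h1
    subst this
    have h3 := hr.two_le
    omega

theorem three_dvd {q : ℕ} (h : q % 3 = 1) : 3 ∣ G 3 q :=
  dvd_G_of_one (by omega) (by omega) (dvd_refl 3)

theorem log_s_eq (N q : ℕ) : Real.log (s N q) =
    ∑ r ∈ (s N q).primeFactors, ((s N q).factorization r : ℝ) * Real.log r := by
  have h := Nat.prod_factorization_pow_eq_self (s_pos N q).ne'
  conv_lhs => rw [← h]
  rw [Finsupp.prod, Nat.support_factorization]
  push_cast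
  rw [Real.log_prod]
  · refine sum_congr rfl fun r _ => ?_
    rw [Real.log_pow]
  · intro r hr
    have := (Nat.prime_of_mem_primeFactors hr).pos
    positivity

theorem lt_log_s {N q : ℕ} (hq : q ∈ N.primeFactors) :
    (N.factorization q : ℝ) * Real.log q < Real.log (s N q) := by
  have h1 : ((q : ℝ)) ^ N.factorization q < ((s N q : ℕ) : ℝ) := by
    exact_mod_cast lt_s hq
  have h2 : (0 : ℝ) < (q : ℝ) := by exact_mod_cast (Nat.prime_of_mem_primeFactors hq).pos
  rw [← Real.log_pow]
  exact Real.log_lt_log (by positivity) h1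

theorem log_N {N : ℕ} (hN : N ≠ 0) :
    Real.log N = ∑ q ∈ N.primeFactors, (N.factorization q : ℝ) * Real.log q := by
  have h1 : (N : ℝ) = ∏ q ∈ N.primeFactors, (q : ℝ) ^ N.factorization q := by
    conv_lhs => rw [← Nat.prod_factorization_pow_eq_self hN]
    rw [Finsupp.prod, Nat.support_factorization]
    push_cast
    rfl
  conv_lhs => rw [h1]
  rw [Real.log_prod (fun q hq => by
    have := (Nat.prime_of_mem_primeFactors hq).pos
    positivity)]
  refine sum_congr rfl fun q _ => ?_
  rw [Real.log_pow]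

/-- the mass of `A` lies on the other primes -/
theorem mass_A {N : ℕ} (ho : Odd N) (hN : N.Perfect) :
    ∑ q ∈ A N, (N.factorization q : ℝ) * Real.log q ≤
      ∑ r ∈ O N, (N.factorization r : ℝ) * Real.log r := by
  have h1 : ∀ q ∈ A N, (N.factorization q : ℝ) * Real.log q ≤
      ∑ r ∈ O N, ((s N q).factorization r : ℝ) * Real.log r := by
    intro q hq
    have hq' : q ∈ N.primeFactors ∧ N.factorization q = 2 ∧ q % 3 = 2 := mem_filter.1 hq
    have hqo : Odd q := by
      have := two_lt ho hq'.1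
      exact (Nat.prime_of_mem_primeFactors hq'.1).odd_of_ne_two (by omega)
    have hso : Odd (s N q) := odd_s hqo (by rw [hq'.2.1]; decide)
    refine (lt_log_s hq'.1).le.trans ?_
    rw [log_s_eq]
    apply sum_le_sum_of_subset_of_nonneg
    · intro r hr
      have hrp := Nat.prime_of_mem_primeFactors hr
      have hrd := Nat.dvd_of_mem_primeFactors hr
      have hr2 : r ≠ 2 := by
        rintro rfl
        rcases hso with ⟨k, hk⟩
        omega
      refine mem_filter.2 ⟨head_mem hN hq'.1 hrp hrd hr2, ?_⟩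
      rintro ⟨-, h3⟩
      rw [s_two hq'.2.1] at hrd
      exact not_dvd_two hrp h3 hrd
    · intro r _ _
      exact mul_nonneg (Nat.cast_nonneg _) (Real.log_natCast_nonneg r)
  calc ∑ q ∈ A N, (N.factorization q : ℝ) * Real.log q
      ≤ ∑ q ∈ A N, ∑ r ∈ O N, ((s N q).factorization r : ℝ) * Real.log r := sum_le_sum h1
    _ ≤ ∑ q ∈ N.primeFactors, ∑ r ∈ O N, ((s N q).factorization r : ℝ) * Real.log r := by
        apply sum_le_sum_of_subset_of_nonneg (filter_subset _ _)
        intro q _ _
        exact sum_nonneg fun r _ => mul_nonneg (Nat.cast_nonneg _) (Real.log_natCast_nonneg r)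
    _ = ∑ r ∈ O N, ∑ q ∈ N.primeFactors, ((s N q).factorization r : ℝ) * Real.log r := sum_comm
    _ = ∑ r ∈ O N, (N.factorization r : ℝ) * Real.log r := by
        refine sum_congr rfl fun r hr => ?_
        rw [← sum_mul]
        have hr2 : r ≠ 2 := by
          have := two_lt ho (mem_filter.1 hr).1
          omega
        rw [← sum_fac_odd ho hN hr2]
        push_cast
        rfl

/-- `log N` is at most twice the mass of the other primes -/
theorem log_le_two {N : ℕ} (ho : Odd N) (hN : N.Perfect) :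
    Real.log N ≤ 2 * ∑ r ∈ O N, (N.factorization r : ℝ) * Real.log r := by
  have h1 := mass_A ho hN
  have h2 : Real.log N = ∑ q ∈ A N, (N.factorization q : ℝ) * Real.log q +
      ∑ r ∈ O N, (N.factorization r : ℝ) * Real.log r := by
    rw [log_N hN.2.ne', A, O, sum_filter_add_sum_filter_not]
  linarith

/-- the primes `q ≡ 1 mod 3` with exponent two -/
def A1 (N : ℕ) : Finset ℕ := {q ∈ N.primeFactors | N.factorization q = 2 ∧ q % 3 = 1}

theorem card_A1 {N : ℕ} (ho : Odd N) (hN : N.Perfect) {Z : ℝ}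
    (hZ : ∀ q ∈ N.primeFactors, (q : ℝ) ^ N.factorization q ≤ Z) (hZ1 : 1 ≤ Z) :
    (#(A1 N) : ℝ) * Real.log 3 ≤ Real.log Z := by
  have h1 : #(A1 N) ≤ N.factorization 3 := by
    rw [← sum_fac_odd ho hN (by norm_num : (3 : ℕ) ≠ 2)]
    have h2 : #(A1 N) = ∑ q ∈ A1 N, 1 := by simp
    rw [h2]
    calc ∑ q ∈ A1 N, 1 ≤ ∑ q ∈ A1 N, (s N q).factorization 3 := by
          refine sum_le_sum fun q hq => ?_
          have hq' := (mem_filter.1 hq).2
          have h3 : 3 ∣ s N q := by rw [s_two hq'.1]; exact three_dvd hq'.2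
          exact Nat.one_le_iff_ne_zero.2
            (Nat.Prime.factorization_pos_of_dvd Nat.prime_three (s_pos N q).ne' h3).ne'
      _ ≤ _ := sum_le_sum_of_subset (filter_subset _ _)
  by_cases h3 : 3 ∈ N.primeFactors
  · have h4 := hZ 3 h3
    have h5 : (#(A1 N) : ℝ) ≤ (N.factorization 3 : ℝ) := by exact_mod_cast h1
    have h6 : 0 < Real.log 3 := Real.log_pos (by norm_num)
    calc (#(A1 N) : ℝ) * Real.log 3 ≤ (N.factorization 3 : ℝ) * Real.log 3 :=
          mul_le_mul_of_nonneg_right h5 h6.le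
      _ = Real.log ((3 : ℕ) ^ N.factorization 3 : ℝ) := by rw [Real.log_pow]; norm_num
      _ ≤ Real.log Z := Real.log_le_log (by positivity) h4
  · have h4 : N.factorization 3 = 0 := by
      rw [← Nat.support_factorization, Finsupp.notMem_support_iff] at h3
      exact h3
    have h5 : #(A1 N) = 0 := by omega
    rw [h5]
    simpa using Real.log_nonneg hZ1

theorem O_sub {N : ℕ} : O N ⊆ A1 N ∪ ({3} ∪ ({q ∈ N.primeFactors | Odd (N.factorization q)} ∪ D N)) := by
  intro q hq
  obtain ⟨hq1, hq2⟩ := mem_filter.1 hq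
  have h1 := fac_pos hq1
  simp only [mem_union, mem_singleton, A1, D, mem_filter]
  by_cases h4 : 4 ≤ N.factorization q
  · exact Or.inr (Or.inr (Or.inr ⟨hq1, h4⟩))
  by_cases ho : Odd (N.factorization q)
  · exact Or.inr (Or.inr (Or.inl ⟨hq1, ho⟩))
  have h2 : N.factorization q = 2 := by
    rw [Nat.not_odd_iff_even] at ho
    rcases ho with ⟨k, hk⟩
    omega
  have h3 : q % 3 = 1 ∨ q % 3 = 0 := by
    have : ¬ q % 3 = 2 := fun h => hq2 ⟨h2, h⟩
    omega
  rcases h3 with h3 | h3
  · exact Or.inl ⟨hq1, h2, h3⟩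
  · refine Or.inr (Or.inl ?_)
    have h5 : 3 ∣ q := Nat.dvd_of_mod_eq_zero h3
    exact ((Nat.prime_dvd_prime_iff_eq Nat.prime_three (Nat.prime_of_mem_primeFactors hq1)).1 h5).symm

/-- the main inequality -/
theorem core {N : ℕ} (ho : Odd N) (hN : N.Perfect) {Z : ℝ}
    (hZ : ∀ q ∈ N.primeFactors, (q : ℝ) ^ N.factorization q ≤ Z) (hZ1 : 1 ≤ Z) :
    Real.log N ≤ 2 * ((Real.log Z / Real.log 3 + 2 + #(D N)) * Real.log Z) := by
  have h1 := log_le_two ho hN
  have hl : 0 ≤ Real.log Z := Real.log_nonneg hZ1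
  have h2 : ∑ r ∈ O N, (N.factorization r : ℝ) * Real.log r ≤ (#(O N) : ℝ) * Real.log Z := by
    rw [← nsmul_eq_mul]
    apply sum_le_card_nsmul
    intro r hr
    have hr' := (mem_filter.1 hr).1
    have hr0 : (0 : ℝ) < r := by exact_mod_cast (Nat.prime_of_mem_primeFactors hr').pos
    rw [← Real.log_pow]
    exact Real.log_le_log (by positivity) (hZ r hr')
  have h3 : (#(O N) : ℝ) ≤ Real.log Z / Real.log 3 + 2 + #(D N) := by
    have h4 := card_le_card (O_sub (N := N))
    have h5 := card_odd_le ho hN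
    have h6 : #(O N) ≤ #(A1 N) + (1 + (1 + #(D N))) := by
      refine h4.trans ((card_union_le _ _).trans ?_)
      gcongr
      refine (card_union_le _ _).trans ?_
      rw [card_singleton]
      gcongr
      refine (card_union_le _ _).trans ?_
      gcongr
    have h7 := card_A1 ho hN hZ hZ1
    have h8 : 0 < Real.log 3 := Real.log_pos (by norm_num)
    have h9 : (#(A1 N) : ℝ) ≤ Real.log Z / Real.log 3 := by rw [le_div_iff₀ h8]; exact h7
    have h10 : (#(O N) : ℝ) ≤ #(A1 N) + (1 + (1 + #(D N))) := by exact_mod_cast h6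
    linarith
  have h4 := mul_le_mul_of_nonneg_right h3 hl
  linarith

end Pool.Agent.LC
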