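import Pool.Agent.Lib.MP_f02ea4_nt.LC.Core

/-!
# The largest component of an odd perfect number: the bounds
-/

set_option autoImplicit false

namespace Pool.Agent.LC

open Finset Nat Pool.Agent.BE

theorem log_le_div_e {t : ℝ} (ht : 0 < t) : Real.log t ≤ t / Real.exp 1 := by
  have h1 : Real.log (t / Real.exp 1) ≤ t / Real.exp 1 - 1 :=
    Real.log_le_sub_one_of_pos (by positivity)
  rw [Real.log_div ht.ne' (Real.exp_pos 1).ne', Real.log_exp] at h1
  linarith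

theorem inv_e : 1 / Real.exp 1 ≤ 368 / 1000 := by
  have h := Real.exp_one_gt_d9
  rw [div_le_iff₀ (Real.exp_pos 1)]
  nlinarith

/-- `log x ≤ 0.736 √x` -/
theorem log_le_sqrt {x : ℝ} (hx : 0 < x) : Real.log x ≤ 736 / 1000 * √x := by
  have hs : 0 < √x := Real.sqrt_pos.2 hx
  have h1 := log_le_div_e hs
  have h2 : Real.log x = 2 * Real.log (√x) := by
    rw [Real.log_sqrt hx.le]; ring
  have h3 : √x / Real.exp 1 ≤ 368 / 1000 * √x := by
    have := mul_le_mul_of_nonneg_left inv_e hs.le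
    calc √x / Real.exp 1 = √x * (1 / Real.exp 1) := by ring
      _ ≤ √x * (368 / 1000) := this
      _ = 368 / 1000 * √x := by ring
  linarith

/-- a set of primes up to `x` -/
theorem card_primes {S : Finset ℕ} {x : ℝ} (hx : 1 ≤ x) (hS : ∀ q ∈ S, q.Prime ∧ (q : ℝ) ≤ x) :
    (#S : ℝ) * Real.log x ≤ (3509 / 1000) * x := by
  classical
  have hx0 : 0 < x := by linarith
  have hs : 0 < √x := Real.sqrt_pos.2 hx0
  have hsx : √x * √x = x := Real.mul_self_sqrt hx0.le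
  have hl : 0 ≤ Real.log x := Real.log_nonneg hx
  -- small primes
  have h1 : (#(S.filter (fun q : ℕ => (q : ℝ) ≤ √x)) : ℝ) ≤ √x := by
    have h2 : S.filter (fun q : ℕ => (q : ℝ) ≤ √x) ⊆ Finset.Ioc 0 ⌊√x⌋₊ := by
      intro q hq
      rw [mem_filter] at hq
      exact Finset.mem_Ioc.2 ⟨(hS q hq.1).1.pos, Nat.le_floor hq.2⟩
    have h3 := card_le_card h2
    rw [Nat.card_Ioc, Nat.sub_zero] at h3
    calc (#(S.filter (fun q : ℕ => (q : ℝ) ≤ √x)) : ℝ) ≤ (⌊√x⌋₊ : ℝ) := by exact_mod_cast h3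
      _ ≤ √x := Nat.floor_le hs.le
  -- large primes
  have h4 : (#(S.filter (fun q : ℕ => ¬ (q : ℝ) ≤ √x)) : ℝ) * Real.log x ≤ 2 * (Real.log 4 * x) := by
    have h5 : ∑ q ∈ S.filter (fun q : ℕ => ¬ (q : ℝ) ≤ √x), Real.log q ≤ Chebyshev.theta x := by
      unfold Chebyshev.theta
      apply sum_le_sum_of_subset_of_nonneg
      · intro q hq
        rw [mem_filter] at hq
        obtain ⟨a, b⟩ := hS q hq.1
        exact Finset.mem_filter.2 ⟨Finset.mem_Ioc.2 ⟨a.pos, Nat.le_floor b⟩, a⟩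
      · intro q _ _
        exact Real.log_natCast_nonneg q
    have h6 : (#(S.filter (fun q : ℕ => ¬ (q : ℝ) ≤ √x)) : ℝ) * (Real.log x / 2) ≤
        ∑ q ∈ S.filter (fun q : ℕ => ¬ (q : ℝ) ≤ √x), Real.log q := by
      rw [← nsmul_eq_mul]
      apply card_nsmul_le_sum
      intro q hq
      rw [mem_filter] at hq
      rw [← Real.log_sqrt hx0.le]
      exact Real.log_le_log hs (by linarith [not_le.1 hq.2])
    have h7 := Chebyshev.theta_le_log4_mul_x hx0.le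
    linarith
  have h8 : (#S : ℝ) = #(S.filter (fun q : ℕ => (q : ℝ) ≤ √x)) + #(S.filter (fun q : ℕ => ¬ (q : ℝ) ≤ √x)) := by
    have := card_filter_add_card_filter_not (s := S) (fun q : ℕ => (q : ℝ) ≤ √x)
    exact_mod_cast this.symm
  have h9 : (#(S.filter (fun q : ℕ => (q : ℝ) ≤ √x)) : ℝ) * Real.log x ≤ 736 / 1000 * x := by
    calc (#(S.filter (fun q : ℕ => (q : ℝ) ≤ √x)) : ℝ) * Real.log x ≤ √x * (736 / 1000 * √x) :=
          mul_le_mul h1 (log_le_sqrt hx0) hl hs.le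
      _ = 736 / 1000 * (√x * √x) := by ring
      _ = 736 / 1000 * x := by rw [hsx]
  have h10 : Real.log 4 ≤ 13863 / 10000 := by
    have h11 : Real.log 4 = 2 * Real.log 2 := by
      rw [show (4 : ℝ) = 2 ^ 2 by norm_num, Real.log_pow]; norm_num
    have h12 := Real.log_two_lt_d9
    rw [h11]; linarith
  rw [h8, add_mul]
  nlinarith

theorem one_lt_log_three : 1 < Real.log 3 := by
  have h1 := Real.exp_one_lt_d9
  rw [Real.lt_log_iff_exp_lt (by norm_num)]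
  linarith

/-- the set-up: the largest component is `x ^ 4` -/
theorem setup {N : ℕ} (ho : Odd N) (hN : N.Perfect) : ∃ q ∈ N.primeFactors, ∃ x : ℝ, 1 ≤ x ∧
    x ^ 4 = (q : ℝ) ^ N.factorization q ∧
    (∀ r ∈ N.primeFactors, (r : ℝ) ^ N.factorization r ≤ x ^ 4) := by
  obtain ⟨p, hp, -⟩ := exists_odd ho hN
  obtain ⟨q, hq, hmax⟩ := exists_max_image N.primeFactors (fun r : ℕ => (r : ℝ) ^ N.factorization r) ⟨p, hp⟩
  have h1 : (1 : ℝ) ≤ (q : ℝ) ^ N.factorization q := by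
    apply one_le_pow₀
    exact_mod_cast (Nat.prime_of_mem_primeFactors hq).one_lt.le
  have h2 : √(√((q : ℝ) ^ N.factorization q)) ^ 4 = (q : ℝ) ^ N.factorization q := by
    rw [show 4 = 2 * 2 by norm_num, pow_mul, Real.sq_sqrt (Real.sqrt_nonneg _), Real.sq_sqrt (by linarith)]
  refine ⟨q, hq, √(√((q : ℝ) ^ N.factorization q)), ?_, h2, ?_⟩
  · rw [Real.one_le_sqrt, Real.one_le_sqrt]; exact h1
  · intro r hr
    rw [h2]
    exact hmax r hr

theorem core' {N : ℕ} (ho : Odd N) (hN : N.Perfect) {x : ℝ} (hx : 1 ≤ x)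
    (hZ : ∀ r ∈ N.primeFactors, (r : ℝ) ^ N.factorization r ≤ x ^ 4) :
    Real.log N ≤ 32 * Real.log x ^ 2 + 16 * Real.log x + 8 * (#(D N) * Real.log x) := by
  have h1 := core ho hN hZ (one_le_pow₀ hx)
  have hl : 0 ≤ Real.log x := Real.log_nonneg hx
  rw [Real.log_pow] at h1
  push_cast at h1
  have h3 := one_lt_log_three
  have h4 : 4 * Real.log x / Real.log 3 ≤ 4 * Real.log x := div_le_self (by positivity) h3.le
  have h5 : (4 * Real.log x / Real.log 3 + 2 + #(D N)) * (4 * Real.log x) ≤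
      (4 * Real.log x + 2 + #(D N)) * (4 * Real.log x) :=
    mul_le_mul_of_nonneg_right (by linarith) (by positivity)
  nlinarith

theorem mem_D {N : ℕ} {x : ℝ} (hx : 1 ≤ x)
    (hZ : ∀ r ∈ N.primeFactors, (r : ℝ) ^ N.factorization r ≤ x ^ 4) : ∀ q ∈ D N, q.Prime ∧ (q : ℝ) ≤ x := by
  intro q hq
  obtain ⟨h1, h2⟩ := mem_filter.1 hq
  have hp := Nat.prime_of_mem_primeFactors h1
  refine ⟨hp, ?_⟩
  have h3 : (1 : ℝ) ≤ q := by exact_mod_cast hp.one_lt.le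
  have h4 : (q : ℝ) ^ 4 ≤ x ^ 4 := (pow_le_pow_right₀ h3 h2).trans (hZ q h1)
  exact le_of_pow_le_pow_left₀ (by norm_num) (by linarith) h4

theorem log_le_x {N : ℕ} (ho : Odd N) (hN : N.Perfect) {x : ℝ} (hx : 1 ≤ x)
    (hZ : ∀ r ∈ N.primeFactors, (r : ℝ) ^ N.factorization r ≤ x ^ 4) : Real.log N ≤ 52 * x := by
  have h1 := core' ho hN hx hZ
  have h2 := card_primes hx (mem_D hx hZ)
  have hx0 : 0 < x := by linarith
  have hl : 0 ≤ Real.log x := Real.log_nonneg hx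
  have h3 := log_le_sqrt hx0
  have h4 : Real.log x ^ 2 ≤ (736 / 1000) ^ 2 * x := by
    calc Real.log x ^ 2 ≤ (736 / 1000 * √x) ^ 2 := pow_le_pow_left₀ hl h3 2
      _ = (736 / 1000) ^ 2 * x := by rw [mul_pow, Real.sq_sqrt hx0.le]
  have h5 : Real.log x ≤ 368 / 1000 * x := by
    have h6 := log_le_div_e hx0
    have h7 := mul_le_mul_of_nonneg_left inv_e hx0.le
    calc Real.log x ≤ x / Real.exp 1 := h6
      _ = x * (1 / Real.exp 1) := by ring
      _ ≤ x * (368 / 1000) := h7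
      _ = _ := by ring
  nlinarith

/-- every odd perfect number `N` has a component `q ^ e` with `(log N) ^ 4 ≤ 10 ^ 7 q ^ e` -/
theorem largest_explicit {N : ℕ} (ho : Odd N) (hN : N.Perfect) :
    ∃ q ∈ N.primeFactors, Real.log N ^ 4 ≤ 10 ^ 7 * (q : ℝ) ^ N.factorization q := by
  obtain ⟨q, hq, x, hx, h1, h2⟩ := setup ho hN
  refine ⟨q, hq, ?_⟩
  have h3 := log_le_x ho hN hx h2
  have h4 : 0 ≤ Real.log N := Real.log_natCast_nonneg N
  rw [← h1]
  calc Real.log N ^ 4 ≤ (52 * x) ^ 4 := pow_le_pow_left₀ h4 h3 4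
    _ = 52 ^ 4 * x ^ 4 := by ring
    _ ≤ 10 ^ 7 * x ^ 4 := by
      have : (0:ℝ) ≤ x ^ 4 := by positivity
      nlinarith

/-- the primes with exponent four are thin -/
theorem card_D_le (hT : Thin) : ∃ C : ℝ, 0 < C ∧ ∀ N : ℕ, Odd N → N.Perfect → ∀ x : ℝ, 2 ≤ x →
    (∀ r ∈ N.primeFactors, (r : ℝ) ^ N.factorization r ≤ x ^ 4) →
    (#(D N) : ℝ) ≤ C * (x / Real.log x ^ 2) + x ^ (4 / 5 : ℝ) := by
  classical
  obtain ⟨C, hC, hT⟩ := hT
  refine ⟨C * 64, by positivity, fun N ho hN x hx hZ => ?_⟩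
  have h1 := hT N ho hN x hx 4 (by norm_num)
  have hx0 : 0 < x := by linarith
  have h2 : D N ⊆ (N.primeFactors.filter (fun p : ℕ => (p : ℝ) ≤ x ∧ N.factorization p ≤ 4)) ∪
      Finset.Ioc 0 ⌊x ^ (4 / 5 : ℝ)⌋₊ := by
    intro q hq
    have h3 := mem_D (by linarith) hZ q hq
    obtain ⟨h4, h5⟩ := mem_filter.1 hq
    rw [mem_union]
    by_cases h6 : N.factorization q ≤ 4
    · exact Or.inl (mem_filter.2 ⟨h4, h3.2, h6⟩)
    · right
      refine Finset.mem_Ioc.2 ⟨h3.1.pos, Nat.le_floor ?_⟩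
      have h7 : (1 : ℝ) ≤ q := by exact_mod_cast h3.1.one_lt.le
      have h8 : (q : ℝ) ^ 5 ≤ x ^ 4 := (pow_le_pow_right₀ h7 (by omega)).trans (hZ q h4)
      have h9 : ((q : ℝ) ^ (5 : ℕ)) ^ (1 / 5 : ℝ) ≤ (x ^ (4 : ℕ)) ^ (1 / 5 : ℝ) :=
        Real.rpow_le_rpow (by positivity) h8 (by norm_num)
      rw [← Real.rpow_natCast, ← Real.rpow_natCast, ← Real.rpow_mul (by linarith),
        ← Real.rpow_mul hx0.le] at h9
      norm_num at h9
      exact h9
  have h3 := (card_le_card h2).trans (card_union_le _ _)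
  rw [Nat.card_Ioc, Nat.sub_zero] at h3
  have h4 : (#(D N) : ℝ) ≤ #(N.primeFactors.filter (fun p : ℕ => (p : ℝ) ≤ x ∧ N.factorization p ≤ 4)) +
      (⌊x ^ (4 / 5 : ℝ)⌋₊ : ℝ) := by exact_mod_cast h3
  have h5 : (⌊x ^ (4 / 5 : ℝ)⌋₊ : ℝ) ≤ x ^ (4 / 5 : ℝ) := Nat.floor_le (by positivity)
  have h6 : C * ((4 : ℕ) : ℝ) * (2 : ℝ) ^ 4 * x / Real.log x ^ 2 = C * 64 * (x / Real.log x ^ 2) := by
    push_cast; ring
  rw [h6] at h1
  linarith

/-- powers of the logarithm: `log x ^ 4 ≤ 10 ^ 5 * x ^ (1 / 5)`, in the form used below -/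
theorem log_pow_le {x : ℝ} (hx : 1 ≤ x) : Real.log x ≤ 20 * x ^ (1 / 20 : ℝ) := by
  have h1 : Real.log (x ^ (1 / 20 : ℝ)) ≤ x ^ (1 / 20 : ℝ) := by
    have h2 : 0 < x ^ (1 / 20 : ℝ) := by positivity
    linarith [Real.log_le_sub_one_of_pos h2]
  rw [Real.log_rpow (by linarith)] at h1
  linarith

/-- `log N ≤ C x / log x` -/
theorem log_le_x' (hT : Thin) : ∃ C : ℝ, 0 < C ∧ ∀ N : ℕ, Odd N → N.Perfect → ∀ x : ℝ, 2 ≤ x →
    (∀ r ∈ N.primeFactors, (r : ℝ) ^ N.factorization r ≤ x ^ 4) →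
    Real.log N * Real.log x ≤ C * x := by
  obtain ⟨C, hC, h⟩ := card_D_le hT
  refine ⟨32 * 20 ^ 3 + 16 * 20 ^ 2 + 8 * C + 8 * 20 ^ 2, by positivity, fun N ho hN x hx hZ => ?_⟩
  have hx1 : 1 ≤ x := by linarith
  have hx0 : 0 < x := by linarith
  have hl : 0 < Real.log x := Real.log_pos (by linarith)
  have h1 := core' ho hN hx1 hZ
  have h2 := h N ho hN x hx hZ
  have h3 := log_pow_le hx1
  have hp : 1 ≤ x ^ (1 / 20 : ℝ) := Real.one_le_rpow hx1 (by norm_num)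
  have e1 : (x ^ (1 / 20 : ℝ)) ^ 4 * x ^ (4 / 5 : ℝ) = x := by
    rw [← Real.rpow_natCast, ← Real.rpow_mul hx0.le, ← Real.rpow_add hx0]
    norm_num
  have hq : 1 ≤ x ^ (4 / 5 : ℝ) := Real.one_le_rpow hx1 (by norm_num)
  have e4 : (x ^ (1 / 20 : ℝ)) ^ 4 ≤ x := by
    calc (x ^ (1 / 20 : ℝ)) ^ 4 = (x ^ (1 / 20 : ℝ)) ^ 4 * 1 := by ring
      _ ≤ (x ^ (1 / 20 : ℝ)) ^ 4 * x ^ (4 / 5 : ℝ) := mul_le_mul_of_nonneg_left hq (by positivity)
      _ = x := e1
  have l2 : Real.log x ^ 2 ≤ 20 ^ 2 * (x ^ (1 / 20 : ℝ)) ^ 2 := by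
    calc Real.log x ^ 2 ≤ (20 * x ^ (1 / 20 : ℝ)) ^ 2 := pow_le_pow_left₀ hl.le h3 2
      _ = _ := by ring
  have l3 : Real.log x ^ 3 ≤ 20 ^ 3 * (x ^ (1 / 20 : ℝ)) ^ 3 := by
    calc Real.log x ^ 3 ≤ (20 * x ^ (1 / 20 : ℝ)) ^ 3 := pow_le_pow_left₀ hl.le h3 3
      _ = _ := by ring
  have p2 : (x ^ (1 / 20 : ℝ)) ^ 2 ≤ (x ^ (1 / 20 : ℝ)) ^ 4 := pow_le_pow_right₀ hp (by norm_num)
  have p3 : (x ^ (1 / 20 : ℝ)) ^ 3 ≤ (x ^ (1 / 20 : ℝ)) ^ 4 := pow_le_pow_right₀ hp (by norm_num)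
  have t1 : Real.log x ^ 3 ≤ 20 ^ 3 * x := by nlinarith
  have t2 : Real.log x ^ 2 ≤ 20 ^ 2 * x := by nlinarith
  have t3 : x ^ (4 / 5 : ℝ) * Real.log x ^ 2 ≤ 20 ^ 2 * x := by
    calc x ^ (4 / 5 : ℝ) * Real.log x ^ 2 ≤ x ^ (4 / 5 : ℝ) * (20 ^ 2 * (x ^ (1 / 20 : ℝ)) ^ 2) :=
          mul_le_mul_of_nonneg_left l2 (by positivity)
      _ ≤ x ^ (4 / 5 : ℝ) * (20 ^ 2 * (x ^ (1 / 20 : ℝ)) ^ 4) := by
          apply mul_le_mul_of_nonneg_left _ (by positivity)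
          linarith
      _ = 20 ^ 2 * ((x ^ (1 / 20 : ℝ)) ^ 4 * x ^ (4 / 5 : ℝ)) := by ring
      _ = 20 ^ 2 * x := by rw [e1]
  have t4 : (#(D N) : ℝ) * Real.log x ^ 2 ≤ C * x + 20 ^ 2 * x := by
    calc (#(D N) : ℝ) * Real.log x ^ 2 ≤
          (C * (x / Real.log x ^ 2) + x ^ (4 / 5 : ℝ)) * Real.log x ^ 2 :=
          mul_le_mul_of_nonneg_right h2 (by positivity)
      _ = C * x + x ^ (4 / 5 : ℝ) * Real.log x ^ 2 := by
          field_simp
      _ ≤ _ := by linarith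
  have h5 := mul_le_mul_of_nonneg_right h1 hl.le
  calc Real.log N * Real.log x
      ≤ (32 * Real.log x ^ 2 + 16 * Real.log x + 8 * (#(D N) * Real.log x)) * Real.log x := h5
    _ = 32 * Real.log x ^ 3 + 16 * Real.log x ^ 2 + 8 * (#(D N) * Real.log x ^ 2) := by ring
    _ ≤ _ := by nlinarith

/-- every odd perfect number `N` has a component `q ^ e ≥ c (log N loglog N) ^ 4` -/
theorem largest_component (hT : Thin) : ∃ c : ℝ, 0 < c ∧ ∀ N : ℕ, Odd N → N.Perfect →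
    ∃ q ∈ N.primeFactors, c * (Real.log N * Real.log (Real.log N)) ^ 4 ≤
      (q : ℝ) ^ N.factorization q := by
  obtain ⟨C, hC, h⟩ := log_le_x' hT
  -- `L log L ≤ K x`
  obtain ⟨K, hK⟩ : ∃ K : ℝ, K = 104 * 104 + 8 * C := ⟨_, rfl⟩
  have hK0 : 0 < K := by rw [hK]; positivity
  refine ⟨1 / K ^ 4, by positivity, fun N ho hN => ?_⟩
  obtain ⟨q, hq, x, hx, h1, h2⟩ := setup ho hN
  refine ⟨q, hq, ?_⟩
  have hx0 : 0 < x := by linarith
  have hL := log_le_x ho hN hx h2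
  have hN3 : 3 ≤ N := by
    have a1 := two_lt ho hq
    have a2 := Nat.le_of_dvd hN.2 (Nat.dvd_of_mem_primeFactors hq)
    omega
  have hL1 : 1 ≤ Real.log N := by
    have a1 : Real.log 3 ≤ Real.log N := Real.log_le_log (by norm_num) (by exact_mod_cast hN3)
    linarith [one_lt_log_three]
  have hLL : 0 ≤ Real.log (Real.log N) := Real.log_nonneg hL1
  have key : Real.log N * Real.log (Real.log N) ≤ K * x := by
    rcases lt_or_ge x 2 with hx2 | hx2
    · have a1 : Real.log N ≤ 104 := by linarith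
      have a2 : Real.log (Real.log N) ≤ Real.log N := (Real.log_le_sub_one_of_pos (by linarith)).trans (by linarith)
      calc Real.log N * Real.log (Real.log N) ≤ 104 * 104 :=
            mul_le_mul a1 (a2.trans a1) hLL (by norm_num)
        _ ≤ K * 1 := by rw [hK]; linarith
        _ ≤ K * x := mul_le_mul_of_nonneg_left hx hK0.le
    · have a1 := h N ho hN x hx2 h2
      have hl2 : Real.log 2 ≤ Real.log x := Real.log_le_log (by norm_num) hx2
      have hl3 : (69 : ℝ) / 100 ≤ Real.log 2 := by linarith [Real.log_two_gt_d9]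
      have a2 : Real.log (Real.log N) ≤ 8 * Real.log x := by
        have b1 : Real.log (Real.log N) ≤ Real.log (52 * x) := Real.log_le_log (by linarith) hL
        rw [Real.log_mul (by norm_num) hx0.ne'] at b1
        have b2 : Real.log 52 ≤ 6 * Real.log 2 := by
          have : Real.log (2 ^ 6) = 6 * Real.log 2 := by rw [Real.log_pow]; norm_num
          rw [← this]
          exact Real.log_le_log (by norm_num) (by norm_num)
        linarith
      calc Real.log N * Real.log (Real.log N) ≤ Real.log N * (8 * Real.log x) :=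
            mul_le_mul_of_nonneg_left a2 (by linarith)
        _ = 8 * (Real.log N * Real.log x) := by ring
        _ ≤ 8 * (C * x) := by linarith
        _ ≤ K * x := by rw [hK]; nlinarith
  rw [← h1]
  have h3 : (Real.log N * Real.log (Real.log N)) ^ 4 ≤ (K * x) ^ 4 :=
    pow_le_pow_left₀ (mul_nonneg (by linarith) hLL) key 4
  calc 1 / K ^ 4 * (Real.log N * Real.log (Real.log N)) ^ 4 ≤ 1 / K ^ 4 * (K * x) ^ 4 :=
        mul_le_mul_of_nonneg_left h3 (by positivity)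
    _ = x ^ 4 := by field_simp

end Pool.Agent.LC
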