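import Mathlib
import Pool.Agent.Lib.MP_f02ea4_nt.LC.Fin
import Pool.Agent.Lib.MP_f02ea4_nt.BE.ThinUse

/-!
# The largest component of an odd perfect number

A reserve for the problem: the statement in the form of a hand-in.
-/

set_option autoImplicit false

namespace Pool.Agent.Lib.MP_f02ea4_nt.LargestComponentShelf

/-- `N` is an odd perfect number, `v_q` the exponent of the prime `q` in `N`. The largest component
`q ^ v_q` of `N` is at least `(log N) ^ 4 / 10 ^ 7`, and at least `c (log N loglog N) ^ 4` with a
constant `c > 0`. -/
theorem result :
    (∀ N : ℕ, Odd N → Nat.Perfect N →
      ∃ q ∈ N.primeFactors, Real.log N ^ 4 ≤ 10 ^ 7 * (q : ℝ) ^ N.factorization q) ∧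
    ∃ c : ℝ, 0 < c ∧ ∀ N : ℕ, Odd N → Nat.Perfect N →
      ∃ q ∈ N.primeFactors, c * (Real.log N * Real.log (Real.log N)) ^ 4 ≤
        (q : ℝ) ^ N.factorization q :=
  ⟨fun _ ho hN => Pool.Agent.LC.largest_explicit ho hN,
    Pool.Agent.LC.largest_component Pool.Agent.BE.thin⟩

end Pool.Agent.Lib.MP_f02ea4_nt.LargestComponentShelf

/-
claim text of the reserve LargestComponent:
Proves: Let N be an odd perfect number and v_q the exponent of the prime q in N. Then N has a component q^(v_q) (q a prime factor of N) with q^(v_q) >= (log N)^4 / 10^7, and there is an absolute constant c > 0 such that N has a component q^(v_q) >= c (log N loglog N)^4.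
Definitions: none
Relation: Partial result on Q1, unconditional, for all odd perfect numbers; it does not decide whether one exists. Known: largest component > 10^62 (numerical; Cohen, then Ochem and Rao). Exponent 2 up to logarithms is trivial (all components <= Z: all primes but the Euler prime are <= Z^(1/2), Chebyshev); I know of no growing bound with a larger exponent. Method: the product of sigma(q^2) over the q = 2 mod 3 with v_q = 2 is prime to all these q, so log N <= 2 log of the rest of N, which consists of the Euler prime, 3, at most v_3(N) primes q = 1 mod 3 with v_q = 2, and the primes with v_q >= 4, which are at most Z^(1/4); for the factor loglog N these are counted by the sieve (sigma(q^4) has no prime factor in some progression).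
-/
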